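import Pool.Agent.Helper14_DK.Stmts

/-!
# DK module EST: bounds for one term of the telescoping series
-/

set_option autoImplicit false

namespace Pool.Agent.DK.H47

open MeasureTheory Complex Set Metric Filter Pool.Agent.DK
open scoped ContDiff Topology

theorem test_scl {n : ℕ} {g : E n → ℂ} (hg : ContDiff ℝ ∞ g) (h0 : ∀ y, 1 ≤ ‖y‖ → g y = 0)
    {δ : ℝ} (hδ : 0 < δ) (z : E n) : IsTest univ (fun w => scl δ g (z - w)) := by
  have hs : ContDiff ℝ ∞ (scl δ g) := by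
    unfold scl
    exact contDiff_const.mul (hg.comp (contDiff_const_smul _))
  refine ⟨hs.comp (contDiff_const.sub contDiff_id),
    HasCompactSupport.intro (isCompact_closedBall z δ) fun w hw => ?_, subset_univ _⟩
  rw [mem_closedBall, dist_comm, dist_eq_norm, not_le] at hw
  unfold scl
  rw [h0, mul_zero]
  rw [norm_smul, norm_inv, Real.norm_of_nonneg hδ.le, ← div_eq_inv_mul, le_div_iff₀ hδ]
  linarith

theorem sqrt_le {n : ℕ} {α : Fin n → E n → ℂ} (hα : ∀ j, MemLp (α j) 2 volume) (i : Fin n) :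
    Real.sqrt (∫ w, ‖α i w‖ ^ 2) ≤ Real.sqrt (∫ w, ∑ j, ‖α j w‖ ^ 2) := by
  refine Real.sqrt_le_sqrt ?_
  refine integral_mono_of_nonneg (Eventually.of_forall fun z => by positivity) ?_
    (Eventually.of_forall fun z => ?_)
  · exact integrable_finsetSum _ fun j _ => (hα j).integrable_norm_pow (by norm_num)
  · exact Finset.single_le_sum (f := fun j => ‖α j z‖ ^ 2) (fun j _ => by positivity)
      (Finset.mem_univ i)

theorem est (h1 : LipStmt) (h2 : BndStmt) (h3 : TelStmt) : EstStmt := by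
  intro n hn ρ κ₀ hN θ φ V hθ0 hθ1 hV
  obtain ⟨L, hL1, hL⟩ := h1 n hn ρ κ₀ hN
  have hL0 : 0 < L := lt_of_lt_of_le one_pos hL1
  have hgφ : ContDiff ℝ ∞ (cx φ) := contDiff_cx hV.smφ
  have hsφ : ∀ y : E n, 1 ≤ ‖y‖ → cx φ y = 0 := by
    intro y hy
    show ((φ y : ℝ) : ℂ) = 0
    rw [hV.supp y hy]; simp
  choose Cφ hCφ0 hCφ using h2 n (cx φ) hgφ hsφ
  have hVb := fun i => h2 n (V i) (hV.smV i) (hV.suppV i)
  choose CV hCV0 hCV using hVb
  set c : ℝ := (4 * L)⁻¹ with hc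
  have hc0 : 0 < c := by positivity
  have hc1 : c ≤ 1 := by
    rw [hc]
    exact inv_le_one_of_one_le₀ (by linarith)
  have hcL : L * c = 1 / 4 := by
    rw [hc]; field_simp
  have hcl : ∀ (κ : ℝ) (z : E n), 0 < κ → ρ z < κ / 2 → closedBall z (c * κ) ⊆ {z | ρ z < κ} := by
    intro κ z hκ hz w hw
    rw [mem_closedBall, dist_eq_norm] at hw
    have h4 := (le_abs_self _).trans (hL w z)
    have h5 : L * ‖w - z‖ ≤ L * (c * κ) := mul_le_mul_of_nonneg_left hw hL0.le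
    have h6 : L * (c * κ) = κ / 4 := by rw [← mul_assoc, hcL]; ring
    show ρ w < κ
    linarith
  set a : ℕ → ℝ := fun l => (c⁻¹) ^ (2 * n + l) with ha
  set b : ℕ → ℝ := fun l => ((θ * c)⁻¹) ^ (2 * n + l) with hb
  have ha0 : ∀ l, 0 ≤ a l := fun l => by simp only [ha]; positivity
  have hb0 : ∀ l, 0 ≤ b l := fun l => by simp only [hb]; positivity
  have hs0 : ∀ l, 0 ≤ ∑ i, CV i l * a l := fun l =>
    Finset.sum_nonneg fun i _ => mul_nonneg (hCV0 i l) (ha0 l)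
  refine ⟨c, fun l => (∑ i, CV i l * a l) + Cφ l * b l + Cφ l * a l, hc0, hc1, fun l => ?_, hcl,
    ?_⟩
  · have := hs0 l
    have := mul_nonneg (hCφ0 l) (hb0 l)
    have := mul_nonneg (hCφ0 l) (ha0 l)
    linarith
  intro κ F u α hκ hκ₀ hF hu hα hdb
  have hκ1 : κ ≤ 1 := hκ₀.trans hN.lt_one.le
  have hδ0 : 0 < c * κ := by positivity
  have hδ1 : c * κ ≤ 1 := mul_le_one₀ hc1 hκ.le hκ1
  have hθδ0 : 0 < θ * (c * κ) := by positivity
  have hθδ1 : θ * (c * κ) ≤ 1 := mul_le_one₀ hθ1.le hδ0.le hδ1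
  have hop : ∀ r : ℝ, IsOpen {z : E n | ρ z < r} := fun r =>
    isOpen_lt hN.smooth.continuous continuous_const
  have hSα : 0 ≤ Real.sqrt (∫ w, ∑ j, ‖α j w‖ ^ 2) := Real.sqrt_nonneg _
  have hSu : 0 ≤ Real.sqrt (∫ w, ‖u w‖ ^ 2) := Real.sqrt_nonneg _
  have hk : ∀ l, ((c * κ)⁻¹) ^ (2 * n + l) = a l * (κ⁻¹) ^ (2 * n + l) := fun l => by
    simp only [ha]; rw [mul_inv, mul_pow]
  have hkθ : ∀ l, ((θ * (c * κ))⁻¹) ^ (2 * n + l) = b l * (κ⁻¹) ^ (2 * n + l) := fun l => by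
    simp only [hb]; rw [← mul_assoc, mul_inv, mul_pow]
  have hTel := fun (z : E n) (hz : ρ z < κ / 2) =>
    h3 n θ φ V hθ0 hθ1 hV {z | ρ z < κ} F α (hop κ) hF hα hdb (c * κ) z hδ0 (hcl κ z hκ hz)
  refine ⟨fun l z hz => ?_, fun i z hz => ?_⟩
  · -- the two expressions agree near `z`
    have hcd : ∀ i, ContDiff ℝ ∞ (conv (α i) (scl (c * κ) (V i))) := fun i =>
      (hCV i l (α i) (hα i) (c * κ) hδ0 hδ1).1
    have hcu : ContDiff ℝ ∞ (conv u (scl (θ * (c * κ)) (cx φ))) :=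
      (hCφ l u hu _ hθδ0 hθδ1).1
    have hsum : ContDiff ℝ ∞ (fun y => ∑ i, conv (α i) (scl (c * κ) (V i)) y) :=
      ContDiff.sum fun i _ => hcd i
    have heq : (fun y => conv (fun w => F w - u w) (scl (θ * (c * κ)) (cx φ)) y -
          conv F (scl (c * κ) (cx φ)) y) =ᶠ[𝓝 z]
        fun y => (c * κ) • (∑ i, conv (α i) (scl (c * κ) (V i)) y) -
          conv u (scl (θ * (c * κ)) (cx φ)) y := by
      filter_upwards [(hop (κ / 2)).mem_nhds hz] with y hy
      have hi1 := integrable_mul_test' hF (test_scl hgφ hsφ hθδ0 y)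
      have hi2 := integrable_mul_test' hu (test_scl hgφ hsφ hθδ0 y)
      have e1 : conv (fun w => F w - u w) (scl (θ * (c * κ)) (cx φ)) y =
          conv F (scl (θ * (c * κ)) (cx φ)) y - conv u (scl (θ * (c * κ)) (cx φ)) y := by
        unfold conv
        rw [← integral_sub hi1 hi2]
        congr 1
        funext w
        ring
      have e2 := (hTel y hy).1
      rw [e1, Complex.real_smul, ← e2]
      ring
    rw [heq.iteratedFDeriv ℝ l |>.eq_of_nhds]
    have hl : ∀ {f : E n → ℂ}, ContDiff ℝ ∞ f → ContDiffAt ℝ l f z := fun h =>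
      (h.of_le (by exact_mod_cast le_top)).contDiffAt
    rw [fun_iteratedFDeriv_sub_apply (hl (hsum.const_smul _)) (hl hcu),
      iteratedFDeriv_const_smul_apply' (hl hsum),
      iteratedFDeriv_fun_sum_apply fun i _ => hl (hcd i)]
    refine (norm_sub_le _ _).trans ?_
    have b1 : ‖(c * κ) • ∑ i, iteratedFDeriv ℝ l (conv (α i) (scl (c * κ) (V i))) z‖ ≤
        (∑ i, CV i l * a l) * (κ⁻¹) ^ (2 * n + l) * Real.sqrt (∫ w, ∑ j, ‖α j w‖ ^ 2) := by
      rw [norm_smul, Real.norm_of_nonneg hδ0.le]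
      refine (mul_le_of_le_one_left (norm_nonneg _) hδ1).trans ?_
      refine (norm_sum_le _ _).trans ?_
      rw [Finset.sum_mul, Finset.sum_mul]
      refine Finset.sum_le_sum fun i _ => ?_
      refine ((hCV i l (α i) (hα i) (c * κ) hδ0 hδ1).2 z).trans ?_
      rw [hk l, ← mul_assoc]
      refine mul_le_mul_of_nonneg_left (sqrt_le hα i) ?_
      have := hCV0 i l
      have := ha0 l
      positivity
    have b2 : ‖iteratedFDeriv ℝ l (conv u (scl (θ * (c * κ)) (cx φ))) z‖ ≤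
        Cφ l * b l * (κ⁻¹) ^ (2 * n + l) * Real.sqrt (∫ w, ‖u w‖ ^ 2) := by
      refine ((hCφ l u hu _ hθδ0 hθδ1).2 z).trans (le_of_eq ?_)
      rw [hkθ l, ← mul_assoc]
    refine (add_le_add b1 b2).trans ?_
    have hκp : 0 ≤ (κ⁻¹) ^ (2 * n + l) := by positivity
    have q1 := hs0 l
    have q2 := mul_nonneg (hCφ0 l) (hb0 l)
    have q3 := mul_nonneg (hCφ0 l) (ha0 l)
    have r1 : 0 ≤ (Cφ l * b l + Cφ l * a l) * (κ⁻¹) ^ (2 * n + l) *
        Real.sqrt (∫ w, ∑ j, ‖α j w‖ ^ 2) := by positivity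
    have r2 : 0 ≤ ((∑ i, CV i l * a l) + Cφ l * a l) * (κ⁻¹) ^ (2 * n + l) *
        Real.sqrt (∫ w, ‖u w‖ ^ 2) := by positivity
    nlinarith [r1, r2]
  · rw [(hTel z hz).2 i]
    have h5 := (hCφ 0 (α i) (hα i) (c * κ) hδ0 hδ1).2 z
    rw [norm_iteratedFDeriv_zero] at h5
    refine h5.trans ?_
    have hk0 := hk 0
    rw [hk0, add_zero, ← mul_assoc]
    have hκp : 0 ≤ (κ⁻¹) ^ (2 * n) := by positivity
    have q1 := hs0 0
    have q2 := mul_nonneg (hCφ0 0) (hb0 0)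
    have q3 := mul_nonneg (hCφ0 0) (ha0 0)
    refine mul_le_mul ?_ (sqrt_le hα i) (Real.sqrt_nonneg _) (by positivity)
    refine mul_le_mul_of_nonneg_right ?_ hκp
    linarith

end Pool.Agent.DK.H47
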