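import Pool.Agent.Helper14_DK.Stmts

/-!
# DK module H: Hoermander's theorem, weak form
-/

set_option autoImplicit false

namespace Pool.Agent.DK.H47

open MeasureTheory Complex Set Metric Filter Pool.Agent.DK
open scoped ContDiff Topology

theorem continuous_nsq {n : ℕ} : Continuous (nsq : E n → ℝ) := by
  unfold nsq; fun_prop

theorem nsq_nonneg {n : ℕ} (z : E n) : 0 ≤ nsq z :=
  Finset.sum_nonneg fun _ _ => by positivity

theorem h (h1 : WpkStmt) (h2 : DualStmt) : HStmt := by
  intro n D s hs t ht K hK hKD α hα hcl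
  obtain ⟨Φ, ψ, η, hW⟩ := h1 n D s hs t ht K hK hKD
  obtain ⟨u, hum, hui, hdb, hle⟩ := h2 n D t K Φ ψ η hW ht α hα hcl
  have hKm : MeasurableSet K := hK.measurableSet
  have hDm : MeasurableSet D := hs.op.measurableSet
  have huK : AEStronglyMeasurable u (volume.restrict K) :=
    hum.mono_measure (Measure.restrict_mono_set _ hKD)
  have hv : AEStronglyMeasurable (K.indicator u) volume :=
    (aestronglyMeasurable_indicator_iff hKm).2 huK
  have hexp : ∀ z ∈ K, Real.exp (-(Φ z - 2 * ψ z)) = Real.exp (-(t * nsq z)) := by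
    intro z hz
    rw [(hW.onK z hz).1, (hW.onK z hz).2, mul_zero, sub_zero]
  -- a bound of the exponential
  obtain ⟨B, hB⟩ := hK.exists_bound_of_continuousOn
    (f := fun z : E n => t * nsq z) (by
      exact (continuous_const.mul continuous_nsq).continuousOn)
  have hwi : IntegrableOn (fun z => ‖u z‖ ^ 2 * Real.exp (-(t * nsq z))) K := by
    refine (hui.mono_set hKD).congr_fun (fun z hz => ?_) hKm
    simp only
    rw [hexp z hz]
  have hsqK : IntegrableOn (fun z => ‖u z‖ ^ 2) K := by
    refine Integrable.mono' (hwi.const_mul (Real.exp B)) ?_ ?_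
    · exact (huK.norm.pow 2)
    · refine (ae_restrict_iff' hKm).2 (Eventually.of_forall fun z hz => ?_)
      rw [Real.norm_of_nonneg (by positivity)]
      have h3 : t * nsq z ≤ B := (le_abs_self _).trans (hB z hz)
      have h4 : 1 ≤ Real.exp B * Real.exp (-(t * nsq z)) := by
        rw [← Real.exp_add]
        exact Real.one_le_exp (by linarith)
      calc ‖u z‖ ^ 2 = ‖u z‖ ^ 2 * 1 := (mul_one _).symm
        _ ≤ ‖u z‖ ^ 2 * (Real.exp B * Real.exp (-(t * nsq z))) :=
            mul_le_mul_of_nonneg_left h4 (by positivity)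
        _ = _ := by ring
  have hv2 : (fun z => ‖K.indicator u z‖ ^ 2) = K.indicator fun z => ‖u z‖ ^ 2 := by
    funext z
    by_cases hz : z ∈ K
    · simp [hz]
    · simp [hz]
  refine ⟨K.indicator u, ?_, fun z hz => Set.indicator_of_notMem hz _, ?_, ?_⟩
  · rw [memLp_two_iff_integrable_sq_norm hv, hv2, integrable_indicator_iff hKm]
    exact hsqK
  · intro j w hw
    have e1 : (fun z => K.indicator u z * dbar j w z) = fun z => u z * dbar j w z := by
      funext z
      by_cases hz : z ∈ K
      · rw [Set.indicator_of_mem hz]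
      · rw [Set.indicator_of_notMem hz,
          (hw.dbar j).zero_of_notMem (fun h' => hz (interior_subset h')), mul_zero, mul_zero]
    rw [e1]
    exact hdb j w (hw.mono (interior_subset.trans hKD))
  · have e1 : (fun z => ‖K.indicator u z‖ ^ 2 * Real.exp (-(t * nsq z))) =
        K.indicator fun z => ‖u z‖ ^ 2 * Real.exp (-(t * nsq z)) := by
      funext z
      by_cases hz : z ∈ K
      · simp [hz]
      · simp [hz]
    rw [e1, integral_indicator hKm]
    have i1 : ∫ z in K, ‖u z‖ ^ 2 * Real.exp (-(t * nsq z)) =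
        ∫ z in K, ‖u z‖ ^ 2 * Real.exp (-(Φ z - 2 * ψ z)) := by
      refine setIntegral_congr_fun hKm fun z hz => ?_
      rw [hexp z hz]
    have i2 : ∫ z in K, ‖u z‖ ^ 2 * Real.exp (-(Φ z - 2 * ψ z)) ≤
        ∫ z in D, ‖u z‖ ^ 2 * Real.exp (-(Φ z - 2 * ψ z)) := by
      refine setIntegral_mono_set hui (Eventually.of_forall fun z => ?_)
        (Eventually.of_forall hKD)
      show (0 : ℝ) ≤ _
      positivity
    have i3 : ∫ z in D, (∑ j, ‖α j z‖ ^ 2) * Real.exp (-(Φ z - ψ z)) ≤ N2 D t α := by
      unfold N2
      have hint : Integrable (fun z => ∑ j, ‖α j z‖ ^ 2) (volume : Measure (E n)) :=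
        integrable_finsetSum _ fun j _ => (hα j).integrable_norm_pow (by norm_num)
      refine integral_mono_of_nonneg (Eventually.of_forall fun z => ?_) ?_ ?_
      · show (0 : ℝ) ≤ _
        have : 0 ≤ ∑ j, ‖α j z‖ ^ 2 := Finset.sum_nonneg fun _ _ => by positivity
        positivity
      · refine Integrable.mono' hint.restrict ?_ (Eventually.of_forall fun z => ?_)
        · exact (hint.restrict).aestronglyMeasurable.mul
            ((Real.continuous_exp.comp (continuous_const.mul
              continuous_nsq).neg).aestronglyMeasurable)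
        · have h0 : 0 ≤ ∑ j, ‖α j z‖ ^ 2 := Finset.sum_nonneg fun _ _ => by positivity
          rw [Real.norm_of_nonneg (by positivity)]
          have h3 : Real.exp (-(t * nsq z)) ≤ 1 := by
            rw [Real.exp_le_one_iff]
            have := mul_nonneg ht.le (nsq_nonneg z)
            linarith
          exact mul_le_of_le_one_right h0 h3
      · refine (ae_restrict_iff' hDm).2 (Eventually.of_forall fun z hz => ?_)
        have h0 : 0 ≤ ∑ j, ‖α j z‖ ^ 2 := Finset.sum_nonneg fun _ _ => by positivity
        refine mul_le_mul_of_nonneg_left (Real.exp_le_exp.2 ?_) h0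
        have := hW.dom z hz
        linarith
    rw [i1]
    refine i2.trans (hle.trans ?_)
    exact mul_le_mul_of_nonneg_left i3 (by positivity)

end Pool.Agent.DK.H47
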